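import Mathlib
import Pool.Agent.H188R3.CircDet
import Pool.Agent.H188R3.Stmt

/-!
There are simple unital C*-algebras `A`, `B` with stably finite minimal tensor product `D`, finite
groups `G`, `H` and actions `α`, `β` such that the tensor product action of `G × H` on `D` has the
Rokhlin property and `α` does not have it.

`A` is an inductive limit of matrix algebras of odd size over `C(𝕋)`, `α` is induced by the rotation
`z ↦ -z` of the circle, `B` is the UHF algebra of type `2^∞` and `H` is trivial.
-/

set_option autoImplicit false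

noncomputable section

namespace Pool.Agent.Results.MP_7f0ddb_an.RokhlinTensorFactor

open Pool.Agent.H188R3 Pool.Agent.H188R3.St

theorem result : ∃ (A B D G H : Type) (_ : CStarAlgebra A) (_ : CStarAlgebra B)
    (_ : CStarAlgebra D) (_ : Group G) (_ : Fintype G) (_ : Group H) (_ : Fintype H)
    (f : St.Hom A D) (g : St.Hom B D) (α : St.Act G A) (β : St.Act H B) (γ : St.Act (G × H) D),
    IsSimpleRing A ∧ IsSimpleRing B ∧ St.IsMinTensor f g ∧ St.StablyFinite D ∧
    St.IsTensorAction f g α β γ ∧ St.Rokhlin γ ∧ ¬ St.Rokhlin α := by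
  obtain ⟨C, _, j, α, hj, hC, hCs, hCf, hα, hjα, hflip⟩ := circ_flip.lim
  obtain ⟨B, D, _, _, f, g, γ, hB, hten, hsf, hact, hR⟩ := main_of_flip α hα hflip
  exact ⟨C, B, D, ℤˣ, Unit, inferInstance, inferInstance, inferInstance, inferInstance,
    inferInstance, inferInstance, inferInstance, f, g, toAct (act α hα),
    toAct (1 : Unit →* (B ≃⋆ₐ[ℂ] B)), toAct γ, hCs, hB, isMinTensor_of hten, hsf,
    isTensorAction_of hact, (rokhlin_toAct γ).2 hR,
    fun h => circ_not_rokhlin hj α hα hjα ((rokhlin_toAct _).1 h)⟩

end Pool.Agent.Results.MP_7f0ddb_an.RokhlinTensorFactor
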